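import Pool.Agent.Lib.MP_1a0ba0_co.Seven

set_option autoImplicit false

namespace Pool.Agent.Results.MP_1a0ba0_co.SevenBodies

open Pool.Agent.Lib.MP_1a0ba0_co Pool.Agent.Lib.MP_1a0ba0_co.Seven

/-- Seven convex bodies in 3-space with pairwise disjoint interiors, none of which can be moved
while the others stay fixed. -/
theorem result :
    ∃ K : Fin 7 → Set (EuclideanSpace ℝ (Fin 3)),
      (∀ i, IsCompact (K i) ∧ Convex ℝ (K i) ∧ (interior (K i)).Nonempty) ∧
      (∀ i j, i ≠ j → Disjoint (interior (K i)) (interior (K j))) ∧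
      ∀ i : Fin 7, ∀ γ : unitInterval → EuclideanSpace ℝ (Fin 3) → EuclideanSpace ℝ (Fin 3),
        (∀ t, Isometry (γ t)) →
        Continuous (fun p : unitInterval × EuclideanSpace ℝ (Fin 3) => γ p.1 p.2) →
        γ 0 = id →
        (∀ t, ∀ j, j ≠ i → Disjoint (interior (γ t '' K i)) (interior (K j))) →
        ∀ t, γ t = id :=
  ⟨X.K, fun i => ⟨X.K_compact v4 i, X.K_convex i, X.K_int v2 i⟩, fun i j h => X.disj v1 i j h,
    fun i γ hγ hc h0 hd => X.blocked v1 v2 v3 v4 i γ hγ hc h0 hd⟩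

end Pool.Agent.Results.MP_1a0ba0_co.SevenBodies
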